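import Pool.Agent.Helper11.V2.S

/-!
# V5: a family of closed sets which contain no residue of the orbit of a point at any time, or only no recurrent one
-/

set_option autoImplicit false

namespace Pool.Agent.Helper10.V5

open MvPolynomial Pool.Agent.Helper61.TH Pool.Agent.Helper87.FK Pool.Agent.Helper26.OB Pool.Agent.Helper10.TR
open Pool.Agent.Helper10.V2 (On)
open Pool.Agent.Helper11.TR (rd_frob finite_wit closedR algR coeffs_mulR coeffs_prodR)
open Pool.Agent.Helper11.V2 (cf cf_or cf_int cf_mem unM fpM red_impD small_congr eval_comp coeff_comp pow_memA)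

noncomputable section

/-- two families of closed sets, with the index `true` for avoided at almost all times and `false` for avoided at the recurrent times -/
inductive Fam {m : ℕ} (A : Subfield ℂ) (s : ℂ →+* ℂ) (F : Fin m → MvPolynomial (Fin m) ℂ)
    (B D : Set (MvPolynomial (Fin m) ℂ)) (t₀ : Fin m → ℂ) : Bool → Set (MvPolynomial (Fin m) ℂ) → Prop
  | union (b : Bool) (Z : Set (MvPolynomial (Fin m) ℂ)) (k : ℕ) (C : Fin k → Set (MvPolynomial (Fin m) ℂ))
      (hZ : ∀ h ∈ Z, ∀ u, coeff u h ∈ A) (hC : ∀ i, Fam A s F B D t₀ b (C i))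
      (h : ∀ t, InX B D t → On Z t → ∃ i, On (C i) t) : Fam A s F B D t₀ b Z
  | conj (b : Bool) (Z W : Set (MvPolynomial (Fin m) ℂ)) (hZ : ∀ h ∈ Z, ∀ u, coeff u h ∈ A)
      (hW : Fam A s F B D t₀ b W)
      (h : ∀ t, InX B D t → (∀ j : ℕ, ∀ h ∈ Z, eval t (map (s ^ j) h) = 0) → On W t) : Fam A s F B D t₀ b Z
  | image (b : Bool) (Z W : Set (MvPolynomial (Fin m) ℂ)) (hZ : ∀ h ∈ Z, ∀ u, coeff u h ∈ A)
      (hW : Fam A s F B D t₀ b W) (h : ∀ t, InX B D t → On Z t → On W (ev F t)) : Fam A s F B D t₀ b Z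
  | enter (b : Bool) (Z W : Set (MvPolynomial (Fin m) ℂ)) (hZ : ∀ h ∈ Z, ∀ u, coeff u h ∈ A)
      (hW : Fam A s F B D t₀ true W) (h0 : ∀ N : ℕ, ∃ k, N ≤ k ∧ ¬ On Z ((ev F)^[k] t₀))
      (h : ∀ t, InX B D t → On Z (ev F t) → On Z t ∨ On W t) : Fam A s F B D t₀ b Z
  | preimage (Z W : Set (MvPolynomial (Fin m) ℂ)) (hZ : ∀ h ∈ Z, ∀ u, coeff u h ∈ A)
      (hW : Fam A s F B D t₀ false W)
      (h : ∀ t, InX B D t → On Z (ev F t) → On W t) : Fam A s F B D t₀ false Z
  | invariant (Z Y W : Set (MvPolynomial (Fin m) ℂ)) (hZ : ∀ h ∈ Z, ∀ u, coeff u h ∈ A)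
      (hY : ∀ h ∈ Y, ∀ u, coeff u h ∈ A) (hW : Fam A s F B D t₀ false W)
      (h1 : ∀ t, InX B D t → On Z t ∨ On Y t → On Y (ev F t))
      (h2 : ∀ t, InX B D t → On Z t → On Y t → On W t) : Fam A s F B D t₀ false Z

theorem Fam.coeffs {m : ℕ} {A : Subfield ℂ} {s : ℂ →+* ℂ} {F : Fin m → MvPolynomial (Fin m) ℂ}
    {B D : Set (MvPolynomial (Fin m) ℂ)} {t₀ : Fin m → ℂ} {b : Bool} {Z : Set (MvPolynomial (Fin m) ℂ)}
    (h : Fam A s F B D t₀ b Z) : ∀ h ∈ Z, ∀ u, coeff u h ∈ A := by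
  cases h <;> assumption

theorem Fam.congr {m : ℕ} {A : Subfield ℂ} {s : ℂ →+* ℂ} {F : Fin m → MvPolynomial (Fin m) ℂ}
    {B D D' : Set (MvPolynomial (Fin m) ℂ)} {t₀ : Fin m → ℂ} {b : Bool} {Z : Set (MvPolynomial (Fin m) ℂ)}
    (h : Fam A s F B D t₀ b Z) (hX : ∀ t, InX B D t ↔ InX B D' t) : Fam A s F B D' t₀ b Z := by
  induction h with
  | union b Z k C hZ _ h ih => exact .union b Z k C hZ ih fun t ht => h t ((hX t).2 ht)
  | conj b Z W hZ _ h ih => exact .conj b Z W hZ ih fun t ht => h t ((hX t).2 ht)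
  | image b Z W hZ _ h ih => exact .image b Z W hZ ih fun t ht => h t ((hX t).2 ht)
  | enter b Z W hZ _ h0 h ih => exact .enter b Z W hZ ih h0 fun t ht => h t ((hX t).2 ht)
  | preimage Z W hZ _ h ih => exact .preimage Z W hZ ih fun t ht => h t ((hX t).2 ht)
  | invariant Z Y W hZ hY _ h1 h2 ih =>
    exact .invariant Z Y W hZ hY ih (fun t ht => h1 t ((hX t).2 ht)) fun t ht => h2 t ((hX t).2 ht)

variable {m : ℕ}

/-- the orbit of `t₀`, periodic modulo `p` from the time `a` on -/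
structure Orb (B : Set (MvPolynomial (Fin m) ℂ)) (D : Finset (MvPolynomial (Fin m) ℂ))
    (F : Fin m → MvPolynomial (Fin m) ℂ) (t₀ : Fin m → ℂ) {p : ℕ} [Fact p.Prime] (τ : ℂ →+* PadicAlgCl p)
    (t : ℕ → Fin m → ℂ) (a c : ℕ) : Prop where
  zero : t 0 = t₀
  step : ∀ k, t (k + 1) = ev F (t k)
  onB : ∀ k, ∀ g ∈ B, eval (t k) g = 0
  int : ∀ k i, ‖τ (t k i)‖ ≤ 1
  unitD : ∀ k, ∃ g ∈ D, ‖τ (eval (t k) g)‖ = 1
  frob : ∀ k i, ‖(τ (t k i)) ^ p - τ (t k i)‖ < 1
  pos : 1 ≤ c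
  per : ∀ k, a ≤ k → ∀ i, ‖τ (t (k + c) i) - τ (t k i)‖ < 1

/-- the times for which the statement holds -/
def Ok (b : Bool) (N a k : ℕ) : Prop := (b = true ∧ N ≤ k) ∨ (b = false ∧ a ≤ k)

theorem Ok.mono {b : Bool} {N N' a k k' : ℕ} (h : Ok b N a k) (hN : N' ≤ N) (hk : k ≤ k') : Ok b N' a k' := by
  rcases h with ⟨h, h'⟩ | ⟨h, h'⟩
  · exact Or.inl ⟨h, by omega⟩
  · exact Or.inr ⟨h, by omega⟩

theorem Ok.le {N a k : ℕ} (h : Ok false N a k) : a ≤ k := by
  rcases h with ⟨h, -⟩ | ⟨-, h⟩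
  · exact absurd h (by simp)
  · exact h

/-- the statement for one closed set -/
def PU (A : Subfield ℂ) (s : ℂ →+* ℂ) (B : Set (MvPolynomial (Fin m) ℂ)) (D : Finset (MvPolynomial (Fin m) ℂ))
    (F : Fin m → MvPolynomial (Fin m) ℂ) (t₀ : Fin m → ℂ) (b : Bool) (Z : Set (MvPolynomial (Fin m) ℂ)) : Prop :=
  ∃ (H : Finset (MvPolynomial (Fin m) ℂ)) (S : Finset ℂ) (N : ℕ), (∀ h ∈ H, h ∈ Z) ∧ (∀ z ∈ S, z ∈ A) ∧
    ∀ (p : ℕ) [Fact p.Prime] (τ : ℂ →+* PadicAlgCl p), Un τ S → FrobPlus s τ S →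
      ∀ (t : ℕ → Fin m → ℂ) (a c : ℕ), Orb B D F t₀ τ t a c → ∀ k, Ok b N a k → ∃ h ∈ H, ‖τ (eval (t k) h)‖ = 1

theorem pu_of {A : Subfield ℂ} {s : ℂ →+* ℂ} {B : Set (MvPolynomial (Fin m) ℂ)} {D : Finset (MvPolynomial (Fin m) ℂ)}
    {F : Fin m → MvPolynomial (Fin m) ℂ} {t₀ : Fin m → ℂ} {b : Bool} {Z : Set (MvPolynomial (Fin m) ℂ)}
    (hZ : ∀ h ∈ Z, ∀ u, coeff u h ∈ A)
    (H : Finset (MvPolynomial (Fin m) ℂ)) (S : Finset ℂ) (N : ℕ) (hH : ∀ h ∈ H, h ∈ Z) (hS : ∀ z ∈ S, z ∈ A)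
    (h : ∀ (p : ℕ) [Fact p.Prime] (τ : ℂ →+* PadicAlgCl p), Un τ S → FrobPlus s τ S →
      (∀ h ∈ H, ∀ u, ‖τ (coeff u h)‖ ≤ 1) →
      ∀ (t : ℕ → Fin m → ℂ) (a c : ℕ), Orb B D F t₀ τ t a c → ∀ k, Ok b N a k →
        (∀ h ∈ H, ‖τ (eval (t k) h)‖ < 1) → False) :
    PU A s B D F t₀ b Z := by
  classical
  refine ⟨H, S ∪ H.biUnion cf, N, hH, ?_, ?_⟩
  · intro z hz
    rcases Finset.mem_union.1 hz with hz | hz
    · exact hS z hz
    · obtain ⟨h, hh, hz⟩ := Finset.mem_biUnion.1 hz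
      exact cf_mem (hZ h (hH h hh)) z hz
  · intro p _ τ hUn hFr t a c hO k hk
    by_contra hcon
    push Not at hcon
    have hint : ∀ h ∈ H, ∀ u, ‖τ (coeff u h)‖ ≤ 1 := fun h hh => cf_int τ h fun z hz =>
      (hUn z (Finset.mem_union_right _ (Finset.mem_biUnion.2 ⟨h, hh, hz⟩))).1
    refine h p τ (unM hUn Finset.subset_union_left) (fpM hFr Finset.subset_union_left) hint t a c hO k hk fun h' hh' => ?_
    exact lt_of_le_of_ne (rd_eval τ h' (hint h' hh') _ (hO.int k)).1 (hcon h' hh')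

theorem fam_pu (A : Subfield ℂ) (hA' : ∀ z : ℂ, IsAlgebraic A z → z ∈ A) (s : ℂ →+* ℂ) (hs : ∀ z ∈ A, s z ∈ A)
    (B : Set (MvPolynomial (Fin m) ℂ)) (hB : ∀ g ∈ B, ∀ u, coeff u g ∈ A) (D : Finset (MvPolynomial (Fin m) ℂ))
    (hD : ∀ g ∈ D, ∀ u, coeff u g ∈ A) (F : Fin m → MvPolynomial (Fin m) ℂ) (hF : ∀ i u, coeff u (F i) ∈ A)
    (t₀ : Fin m → ℂ) (ht₀ : ∀ i, t₀ i ∈ A) (b : Bool)
    (Z : Set (MvPolynomial (Fin m) ℂ)) (hZ : Fam A s F B ↑D t₀ b Z) :
    (∀ h ∈ Z, ∀ u, coeff u h ∈ A) ∧ PU A s B D F t₀ b Z := by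
  classical
  induction hZ with
  | union b Z k C hZ hC h ih =>
    have hZA : ∀ h ∈ Z, ∀ u, coeff u h ∈ A := hZ
    refine ⟨hZA, ?_⟩
    have hCA := fun i => (ih i).1
    choose H S N hH hS hu using fun i => (ih i).2
    obtain ⟨Q, Z1, hQ, hZ1, hred⟩ := red_impD A hA' B hB D hD Z hZA
      ((Fintype.piFinset H).image fun η => ∏ i, η i) (by
        intro g hg
        obtain ⟨η, hη, rfl⟩ := Finset.mem_image.1 hg
        exact coeffs_prodR A _ _ fun i _ => hCA i _ (hH i _ (Fintype.mem_piFinset.1 hη i))) (by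
        intro y hy hyZ g hg
        obtain ⟨η, hη, rfl⟩ := Finset.mem_image.1 hg
        obtain ⟨i, hi⟩ := h y hy hyZ
        rw [map_prod]
        exact Finset.prod_eq_zero (Finset.mem_univ i) (hi _ (hH i _ (Fintype.mem_piFinset.1 hη i))))
    refine pu_of hZA Q (Z1 ∪ (Finset.univ : Finset (Fin k)).biUnion S) (Finset.univ.sup N) hQ ?_ ?_
    · intro z hz
      rcases Finset.mem_union.1 hz with hz | hz
      · exact hZ1 z hz
      · obtain ⟨i, -, hz⟩ := Finset.mem_biUnion.1 hz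
        exact hS i z hz
    · intro p _ τ hUn hFr _ t a c hO k' hk' hsm
      have hsub : ∀ i, S i ⊆ Z1 ∪ (Finset.univ : Finset (Fin k)).biUnion S := fun i =>
        (Finset.subset_biUnion_of_mem S (Finset.mem_univ i)).trans Finset.subset_union_right
      choose η hη hη1 using fun i => hu i p τ (unM hUn (hsub i)) (fpM hFr (hsub i)) t a c hO k'
        (hk'.mono (Finset.le_sup (f := N) (Finset.mem_univ i)) le_rfl)
      have h3 := hred p τ (unM hUn Finset.subset_union_left) (t k') (hO.onB k') (hO.int k') (hO.unitD k') hsm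
        (∏ i, η i) (Finset.mem_image.2 ⟨η, Fintype.mem_piFinset.2 hη, rfl⟩)
      rw [map_prod, map_prod, norm_prod, Finset.prod_congr rfl (fun i _ => hη1 i), Finset.prod_const_one] at h3
      exact lt_irrefl _ h3
  | conj b Z W hZ hW h ih =>
    have hZA : ∀ h ∈ Z, ∀ u, coeff u h ∈ A := hZ
    refine ⟨hZA, ?_⟩
    obtain ⟨hWA, H, S, N, hH, hS, hu⟩ := ih
    obtain ⟨T, hT⟩ : ∃ T : Set (MvPolynomial (Fin m) ℂ), ∀ q, q ∈ T ↔ ∃ h ∈ Z, ∃ j : ℕ, q = map (s ^ j) h :=
      ⟨{q | ∃ h ∈ Z, ∃ j : ℕ, q = map (s ^ j) h}, fun q => Iff.rfl⟩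
    obtain ⟨Q, Z1, hQ, hZ1, hred⟩ := red_impD A hA' B hB D hD T (by
        intro q hq u
        obtain ⟨h, hh, j, rfl⟩ := (hT q).1 hq
        rw [coeff_map]
        exact pow_memA hs j _ (hZ h hh u)) H (fun g hg => hWA g (hH g hg)) (by
        intro y hy hyT g hg
        exact h y hy (fun j h' hh' => hyT _ ((hT _).2 ⟨h', hh', j, rfl⟩)) g (hH g hg))
    obtain ⟨H', hH'Z, hH'⟩ := finite_wit Z (fun _ => False) (fun h q => ∃ j : ℕ, q = map (s ^ j) h) Q
      fun q hq => Or.inr ((hT q).1 (hQ q hq))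
    refine pu_of hZA H' (Z1 ∪ S ∪ H'.biUnion cf) N hH'Z ?_ ?_
    · intro z hz
      rcases Finset.mem_union.1 hz with hz | hz
      · rcases Finset.mem_union.1 hz with hz | hz
        · exact hZ1 z hz
        · exact hS z hz
      · obtain ⟨h, hh, hz⟩ := Finset.mem_biUnion.1 hz
        exact cf_mem (hZA h (hH'Z h hh)) z hz
    · intro p _ τ hUn hFr hint t a c hO k' hk' hsm
      obtain ⟨w, hw, hw1⟩ := hu p τ (unM hUn (Finset.subset_union_right.trans Finset.subset_union_left))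
        (fpM hFr (Finset.subset_union_right.trans Finset.subset_union_left)) t a c hO k' hk'
      have h3 := hred p τ (unM hUn (Finset.subset_union_left.trans Finset.subset_union_left)) (t k') (hO.onB k') (hO.int k')
        (hO.unitD k') (by
          intro q hq
          rcases hH' q hq with h4 | ⟨h, hh, j, rfl⟩
          · exact h4.elim
          · obtain ⟨l, hl⟩ := hFr j
            have h' : ∀ u, ‖τ (coeff u (map (s ^ j) h))‖ ≤ 1 ∧
                ‖(τ (coeff u h)) ^ p ^ l - τ (coeff u (map (s ^ j) h))‖ < 1 := by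
              intro u
              rw [coeff_map]
              rcases cf_or h u with h0 | h0
              · rw [h0, map_zero, map_zero, norm_zero, zero_pow (pow_ne_zero _ (Fact.out : p.Prime).ne_zero), sub_zero,
                  norm_zero]
                exact ⟨zero_le_one, zero_lt_one⟩
              · exact hl _ (Finset.mem_union_right _ (Finset.mem_biUnion.2 ⟨h, hh, h0⟩))
            have h5 := rd_frob τ h (map (s ^ j) h) l (t k') (hO.int k') (hO.frob k') (hint h hh) h'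
            rw [(rd_eq_zero τ (hsm h hh).le).2 (hsm h hh), zero_pow (pow_ne_zero _ (Fact.out : p.Prime).ne_zero)] at h5
            exact (rd_eq_zero τ (rd_eval τ _ (fun u => (h' u).1) _ (hO.int k')).1).1 h5) w hw
      exact h3.ne hw1
  | image b Z W hZ hW h ih =>
    have hZA : ∀ h ∈ Z, ∀ u, coeff u h ∈ A := hZ
    refine ⟨hZA, ?_⟩
    obtain ⟨hWA, H, S, N, hH, hS, hu⟩ := ih
    obtain ⟨Q, Z1, hQ, hZ1, hred⟩ := red_impD A hA' B hB D hD Z hZA (H.image fun w => bind₁ F w) (by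
        intro g hg
        obtain ⟨w, hw, rfl⟩ := Finset.mem_image.1 hg
        exact coeff_comp A F hF w (hWA w (hH w hw))) (by
        intro y hy hyZ g hg
        obtain ⟨w, hw, rfl⟩ := Finset.mem_image.1 hg
        rw [eval_comp]
        exact h y hy hyZ w (hH w hw))
    refine pu_of hZA Q (Z1 ∪ S) N hQ ?_ ?_
    · intro z hz
      rcases Finset.mem_union.1 hz with hz | hz
      · exact hZ1 z hz
      · exact hS z hz
    · intro p _ τ hUn hFr _ t a c hO k' hk' hsm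
      obtain ⟨w, hw, hw1⟩ := hu p τ (unM hUn Finset.subset_union_right) (fpM hFr Finset.subset_union_right) t a c hO (k' + 1)
        (hk'.mono le_rfl (Nat.le_succ _))
      have h3 := hred p τ (unM hUn Finset.subset_union_left) (t k') (hO.onB k') (hO.int k') (hO.unitD k') hsm
        (bind₁ F w) (Finset.mem_image.2 ⟨w, hw, rfl⟩)
      rw [eval_comp, ← hO.step k'] at h3
      exact h3.ne hw1
  | enter b Z W hZ hW h0 h ih =>
    have hZA : ∀ h ∈ Z, ∀ u, coeff u h ∈ A := hZ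
    refine ⟨hZA, ?_⟩
    obtain ⟨hWA, H, S, N, hH, hS, hu⟩ := ih
    obtain ⟨Z₀, hZ₀, hZZ⟩ := Pool.Agent.Helper26.OS.fin_eqs Z
    have hZ₀A : ∀ h ∈ Z₀, ∀ u, coeff u h ∈ A := fun h hh => hZA h (hZ₀ h hh)
    obtain ⟨k₀, hk₀, hZk₀⟩ := h0 N
    obtain ⟨h₀, hh₀, hne⟩ : ∃ h₀ ∈ Z₀, eval ((ev F)^[k₀] t₀) h₀ ≠ 0 := by
      by_contra hcon
      push Not at hcon
      exact hZk₀ ((hZZ _).2 hcon)
    have htA : ∀ k i, (ev F)^[k] t₀ i ∈ A := by
      intro k
      induction k with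
      | zero => exact ht₀
      | succ k ihk =>
        intro i
        rw [Function.iterate_succ_apply']
        exact eval₂_mem (fun u _ => hF i u) ihk
    have hz₀ : eval ((ev F)^[k₀] t₀) h₀ ∈ A := eval₂_mem (fun u _ => hZ₀A h₀ hh₀ u) (htA k₀)
    obtain ⟨Q, Z1, hQ, hZ1, hred⟩ := red_impD A hA' B hB D hD (↑(Z₀.image fun h => bind₁ F h)) (by
        intro q hq
        obtain ⟨h, hh, rfl⟩ := Finset.mem_image.1 (Finset.mem_coe.1 hq)
        exact coeff_comp A F hF h (hZ₀A h hh)) ((Z₀ ×ˢ H).image fun q => q.1 * q.2) (by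
        intro g hg
        obtain ⟨q, hq, rfl⟩ := Finset.mem_image.1 hg
        obtain ⟨hq1, hq2⟩ := Finset.mem_product.1 hq
        exact coeffs_mulR A (hZ₀A _ hq1) (hWA _ (hH _ hq2))) (by
        intro y hy hyT g hg
        obtain ⟨q, hq, rfl⟩ := Finset.mem_image.1 hg
        obtain ⟨hq1, hq2⟩ := Finset.mem_product.1 hq
        rw [map_mul]
        have h1 : On Z (ev F y) := (hZZ (ev F y)).2 fun h' hh' => by
          rw [← eval_comp]
          exact hyT _ (Finset.mem_coe.2 (Finset.mem_image.2 ⟨h', hh', rfl⟩))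
        rcases h y hy h1 with h2 | h2
        · rw [h2 _ (hZ₀ _ hq1), zero_mul]
        · rw [h2 _ (hH _ hq2), mul_zero])
    refine pu_of hZA Z₀ (Z1 ∪ S ∪ {eval ((ev F)^[k₀] t₀) h₀}) k₀ hZ₀ ?_ ?_
    · intro z hz
      rcases Finset.mem_union.1 hz with hz | hz
      · rcases Finset.mem_union.1 hz with hz | hz
        · exact hZ1 z hz
        · exact hS z hz
      · rw [Finset.mem_singleton.1 hz]
        exact hz₀
    · intro p _ τ hUn hFr hint t a c hO k' hk' hsm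
      have htk : ∀ k, t k = (ev F)^[k] t₀ := by
        intro k
        induction k with
        | zero => exact hO.zero
        | succ k ihk => rw [hO.step, ihk, Function.iterate_succ_apply']
      have key : ∀ j, ∃ h ∈ Z₀, ‖τ (eval (t (k₀ + j)) h)‖ = 1 := by
        intro j
        induction j with
        | zero =>
          refine ⟨h₀, hh₀, ?_⟩
          rw [add_zero, htk]
          exact (hUn _ (Finset.mem_union_right _ (Finset.mem_singleton_self _))).2 hne
        | succ j ihj =>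
          by_contra hcon
          push Not at hcon
          obtain ⟨y, hy, hy1⟩ := ihj
          obtain ⟨w, hw, hw1⟩ := hu p τ (unM hUn (Finset.subset_union_right.trans Finset.subset_union_left))
            (fpM hFr (Finset.subset_union_right.trans Finset.subset_union_left)) t a c hO (k₀ + j)
            (Or.inl ⟨rfl, hk₀.trans (Nat.le_add_right _ _)⟩)
          have h3 := hred p τ (unM hUn (Finset.subset_union_left.trans Finset.subset_union_left)) (t (k₀ + j)) (hO.onB _)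
            (hO.int _) (hO.unitD _) (by
              intro q hq
              obtain ⟨h', hh', rfl⟩ := Finset.mem_image.1 (Finset.mem_coe.1 (hQ q hq))
              rw [eval_comp, ← hO.step]
              exact lt_of_le_of_ne (rd_eval τ h' (hint h' hh') _ (hO.int (k₀ + j + 1))).1 (hcon h' hh')) (y * w)
            (Finset.mem_image.2 ⟨(y, w), Finset.mem_product.2 ⟨hy, hw⟩, rfl⟩)
          rw [map_mul, map_mul, norm_mul, hy1, hw1, one_mul] at h3
          exact lt_irrefl _ h3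
      rcases hk' with ⟨-, hk'⟩ | ⟨-, hk'⟩
      · obtain ⟨j, rfl⟩ := Nat.exists_eq_add_of_le hk'
        obtain ⟨y, hy, hy1⟩ := key j
        exact (hsm y hy).ne hy1
      · have hper : ∀ q : ℕ, ∀ y ∈ Z₀, ‖τ (eval (t (k' + c * q)) y)‖ < 1 := by
          intro q
          induction q with
          | zero => exact hsm
          | succ q ihq =>
            intro y hy
            rw [show k' + c * (q + 1) = k' + c * q + c by ring]
            exact small_congr τ y (hint y hy) _ _ (hO.int _) (hO.int _) (hO.per _ (hk'.trans (Nat.le_add_right _ _)))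
              (ihq y hy)
        obtain ⟨j, hj⟩ := Nat.exists_eq_add_of_le (show k₀ ≤ k' + c * k₀ from
          le_add_left (Nat.le_mul_of_pos_left _ hO.pos))
        obtain ⟨y, hy, hy1⟩ := key j
        rw [← hj] at hy1
        exact (hper k₀ y hy).ne hy1
  | preimage Z W hZ hW h ih =>
    have hZA : ∀ h ∈ Z, ∀ u, coeff u h ∈ A := hZ
    refine ⟨hZA, ?_⟩
    obtain ⟨hWA, H, S, N, hH, hS, hu⟩ := ih
    obtain ⟨T, hT⟩ : ∃ T : Set (MvPolynomial (Fin m) ℂ), ∀ q, q ∈ T ↔ ∃ h ∈ Z, q = bind₁ F h :=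
      ⟨{q | ∃ h ∈ Z, q = bind₁ F h}, fun q => Iff.rfl⟩
    obtain ⟨Q, Z1, hQ, hZ1, hred⟩ := red_impD A hA' B hB D hD T (by
        intro q hq
        obtain ⟨h, hh, rfl⟩ := (hT q).1 hq
        exact coeff_comp A F hF h (hZA h hh)) H (fun g hg => hWA g (hH g hg)) (by
        intro y hy hyT g hg
        refine h y hy (fun h' hh' => ?_) g (hH g hg)
        rw [← eval_comp]
        exact hyT _ ((hT _).2 ⟨h', hh', rfl⟩))
    obtain ⟨H', hH'Z, hH'⟩ := finite_wit Z (fun _ => False) (fun h q => q = bind₁ F h) Q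
      fun q hq => Or.inr ((hT q).1 (hQ q hq))
    refine pu_of hZA H' (Z1 ∪ S) N hH'Z ?_ ?_
    · intro z hz
      rcases Finset.mem_union.1 hz with hz | hz
      · exact hZ1 z hz
      · exact hS z hz
    · intro p _ τ hUn hFr hint t a c hO k' hk' hsm
      have hk : a ≤ k' := hk'.le
      obtain ⟨c', rfl⟩ : ∃ c', c = c' + 1 := ⟨c - 1, by have := hO.pos; omega⟩
      obtain ⟨w, hw, hw1⟩ := hu p τ (unM hUn Finset.subset_union_right) (fpM hFr Finset.subset_union_right) t _ _ hO (k' + c')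
        (Or.inr ⟨rfl, by omega⟩)
      have h3 := hred p τ (unM hUn Finset.subset_union_left) (t (k' + c')) (hO.onB _) (hO.int _) (hO.unitD _) (by
          intro q hq
          rcases hH' q hq with h4 | ⟨h, hh, rfl⟩
          · exact h4.elim
          · rw [eval_comp, ← hO.step]
            exact small_congr τ h (hint h hh) _ _ (hO.int _) (hO.int k') (hO.per k' hk) (hsm h hh)) w hw
      exact h3.ne hw1
  | invariant Z Y W hZ hY hW h1 h2 ih =>
    have hZA : ∀ h ∈ Z, ∀ u, coeff u h ∈ A := hZ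
    have hYA : ∀ h ∈ Y, ∀ u, coeff u h ∈ A := hY
    refine ⟨hZA, ?_⟩
    obtain ⟨hWA, H, S, N, hH, hS, hu⟩ := ih
    obtain ⟨Y₀, hY₀, hYY⟩ := Pool.Agent.Helper26.OS.fin_eqs Y
    have hY₀A : ∀ h ∈ Y₀, ∀ u, coeff u h ∈ A := fun h hh => hYA h (hY₀ h hh)
    have hUA : ∀ g ∈ Y₀.image fun w => bind₁ F w, ∀ u, coeff u g ∈ A := by
      intro g hg
      obtain ⟨w, hw, rfl⟩ := Finset.mem_image.1 hg
      exact coeff_comp A F hF w (hY₀A w hw)
    obtain ⟨Q1, Z1, hQ1, hZ1, hred1⟩ := red_impD A hA' B hB D hD Z hZA (Y₀.image fun w => bind₁ F w) hUA (by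
        intro y hy hyZ g hg
        obtain ⟨w, hw, rfl⟩ := Finset.mem_image.1 hg
        rw [eval_comp]
        exact h1 y hy (Or.inl hyZ) w (hY₀ w hw))
    obtain ⟨Q2, Z2, hQ2, hZ2, hred2⟩ := red_impD A hA' B hB D hD (↑Y₀) hY₀A (Y₀.image fun w => bind₁ F w) hUA (by
        intro y hy hyY g hg
        obtain ⟨w, hw, rfl⟩ := Finset.mem_image.1 hg
        rw [eval_comp]
        exact h1 y hy (Or.inr ((hYY y).2 hyY)) w (hY₀ w hw))
    obtain ⟨T, hT⟩ : ∃ T : Set (MvPolynomial (Fin m) ℂ), ∀ q, q ∈ T ↔ q ∈ Z ∨ q ∈ Y₀ :=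
      ⟨{q | q ∈ Z ∨ q ∈ Y₀}, fun q => Iff.rfl⟩
    obtain ⟨Q3, Z3, hQ3, hZ3, hred3⟩ := red_impD A hA' B hB D hD T (by
        intro q hq
        rcases (hT q).1 hq with hq | hq
        · exact hZA q hq
        · exact hY₀A q hq) H (fun g hg => hWA g (hH g hg)) (by
        intro y hy hyT g hg
        exact h2 y hy (fun h' hh' => hyT _ ((hT _).2 (Or.inl hh')))
          ((hYY y).2 fun h' hh' => hyT _ ((hT _).2 (Or.inr hh'))) g (hH g hg))
    refine pu_of hZA (Q1 ∪ Q3.filter (· ∈ Z)) (Z1 ∪ Z2 ∪ Z3 ∪ S ∪ Y₀.biUnion cf) N ?_ ?_ ?_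
    · intro q hq
      rcases Finset.mem_union.1 hq with hq | hq
      · exact hQ1 q hq
      · exact (Finset.mem_filter.1 hq).2
    · intro z hz
      rcases Finset.mem_union.1 hz with hz | hz
      · rcases Finset.mem_union.1 hz with hz | hz
        · rcases Finset.mem_union.1 hz with hz | hz
          · rcases Finset.mem_union.1 hz with hz | hz
            · exact hZ1 z hz
            · exact hZ2 z hz
          · exact hZ3 z hz
        · exact hS z hz
      · obtain ⟨h, hh, hz⟩ := Finset.mem_biUnion.1 hz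
        exact cf_mem (hY₀A h hh) z hz
    · intro p _ τ hUn hFr hint t a c hO k' hk' hsm
      have hk : a ≤ k' := hk'.le
      have s1 : Z1 ⊆ Z1 ∪ Z2 ∪ Z3 ∪ S ∪ Y₀.biUnion cf := fun z hz =>
        Finset.mem_union_left _ (Finset.mem_union_left _ (Finset.mem_union_left _ (Finset.mem_union_left _ hz)))
      have s2 : Z2 ⊆ Z1 ∪ Z2 ∪ Z3 ∪ S ∪ Y₀.biUnion cf := fun z hz =>
        Finset.mem_union_left _ (Finset.mem_union_left _ (Finset.mem_union_left _ (Finset.mem_union_right _ hz)))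
      have s3 : Z3 ⊆ Z1 ∪ Z2 ∪ Z3 ∪ S ∪ Y₀.biUnion cf := fun z hz =>
        Finset.mem_union_left _ (Finset.mem_union_left _ (Finset.mem_union_right _ hz))
      have s4 : S ⊆ Z1 ∪ Z2 ∪ Z3 ∪ S ∪ Y₀.biUnion cf := fun z hz =>
        Finset.mem_union_left _ (Finset.mem_union_right _ hz)
      have hY₀i : ∀ h ∈ Y₀, ∀ u, ‖τ (coeff u h)‖ ≤ 1 := fun h hh => cf_int τ h fun z hz =>
        (hUn z (Finset.mem_union_right _ (Finset.mem_biUnion.2 ⟨h, hh, hz⟩))).1
      obtain ⟨w, hw, hw1⟩ := hu p τ (unM hUn s4) (fpM hFr s4) t a c hO k' hk'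
      have h3 : ∀ j : ℕ, ∀ y ∈ Y₀, ‖τ (eval (t (k' + (j + 1))) y)‖ < 1 := by
        intro j
        induction j with
        | zero =>
          intro y hy
          have := hred1 p τ (unM hUn s1) (t k') (hO.onB _) (hO.int _) (hO.unitD _)
            (fun q hq => hsm q (Finset.mem_union_left _ hq)) (bind₁ F y) (Finset.mem_image.2 ⟨y, hy, rfl⟩)
          rwa [eval_comp, ← hO.step] at this
        | succ j ih' =>
          intro y hy
          have := hred2 p τ (unM hUn s2) (t (k' + (j + 1))) (hO.onB _) (hO.int _) (hO.unitD _)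
            (fun q hq => ih' q (hQ2 q hq)) (bind₁ F y) (Finset.mem_image.2 ⟨y, hy, rfl⟩)
          rwa [eval_comp, ← hO.step] at this
      obtain ⟨c', rfl⟩ : ∃ c', c = c' + 1 := ⟨c - 1, by have := hO.pos; omega⟩
      have h4 : ∀ y ∈ Y₀, ‖τ (eval (t k') y)‖ < 1 := fun y hy =>
        small_congr τ y (hY₀i y hy) _ _ (hO.int k') (hO.int _) (fun i => by
          rw [norm_sub_rev]
          exact hO.per k' hk i) (h3 c' y hy)
      have h5 := hred3 p τ (unM hUn s3) (t k') (hO.onB _) (hO.int _) (hO.unitD _) (by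
        intro q hq
        rcases (hT q).1 (hQ3 q hq) with h6 | h6
        · exact hsm q (Finset.mem_union_right _ (Finset.mem_filter.2 ⟨hq, h6⟩))
        · exact h4 q h6) w hw
      exact h5.ne hw1

end

end Pool.Agent.Helper10.V5
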